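import Pool.Agent.P8H14.CN.Stm

/-! Project CN of helper14, package MUL: the Kronecker symbol is multiplicative. -/

set_option autoImplicit false

namespace Pool.Agent.P8H59.CN

open Pool.Agent.P8H14.CN Pool.Agent.H38R2.CG

theorem od_spec (m : ℕ) (hm : 1 ≤ m) : Odd (od m) ∧ 1 ≤ od m ∧ od m ≤ m ∧ od m ∣ m := by
  unfold od
  have h0 : m ≠ 0 := by omega
  have h1 : 2 ^ padicValNat 2 m ∣ m := pow_padicValNat_dvd
  have h2 : m / 2 ^ padicValNat 2 m * 2 ^ padicValNat 2 m = m := Nat.div_mul_cancel h1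
  refine ⟨?_, ?_, Nat.div_le_self _ _, ⟨_, h2.symm⟩⟩
  · rw [← Nat.not_even_iff_odd, even_iff_two_dvd]
    rintro ⟨c, hc⟩
    refine pow_succ_padicValNat_not_dvd (p := 2) h0 ⟨c, ?_⟩
    calc m = m / 2 ^ padicValNat 2 m * 2 ^ padicValNat 2 m := h2.symm
      _ = (2 * c) * 2 ^ padicValNat 2 m := by rw [hc]
      _ = 2 ^ (padicValNat 2 m + 1) * c := by ring
  · refine Nat.one_le_iff_ne_zero.2 fun h3 => ?_
    rw [h3, zero_mul] at h2
    exact h0 h2.symm

theorem od_mul (m n : ℕ) (hm : 1 ≤ m) (hn : 1 ≤ n) : od (m * n) = od m * od n := by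
  have h1 : 2 ^ padicValNat 2 m ∣ m := pow_padicValNat_dvd
  have h2 : 2 ^ padicValNat 2 n ∣ n := pow_padicValNat_dvd
  have h3 : padicValNat 2 (m * n) = padicValNat 2 m + padicValNat 2 n :=
    padicValNat.mul (by omega) (by omega)
  unfold od
  rw [h3, pow_add, Nat.mul_div_mul_comm h1 h2]

theorem chi2_abs (D : ℤ) : |chi2 D| ≤ 1 := by
  unfold chi2
  split_ifs <;> simp

theorem chi_eq (D : ℤ) (n : ℕ) : chi D n = chi2 D ^ padicValNat 2 n * jacobiSym D (od n) := rfl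

theorem chi_abs (D : ℤ) (n : ℕ) : |chi D n| ≤ 1 := by
  rw [chi_eq, abs_mul, abs_pow]
  have h1 : |chi2 D| ^ padicValNat 2 n ≤ 1 := pow_le_one₀ (abs_nonneg _) (chi2_abs D)
  have h2 : |jacobiSym D (od n)| ≤ 1 := by
    rcases Nat.eq_zero_or_pos (od n) with h | h
    · rw [h, jacobiSym.zero_right]
      simp
    · have : NeZero (od n) := ⟨h.ne'⟩
      rcases jacobiSym.trichotomy D (od n) with h | h | h <;> rw [h] <;> simp
  exact mul_le_one₀ h1 (abs_nonneg _) h2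

/-- package MUL -/
theorem mul : S_MUL := by
  refine ⟨fun D m n hm hn => ?_, chi_abs, od_mul, od_spec⟩
  have h1 : NeZero (od m) := ⟨(Nat.one_le_iff_ne_zero.1 (od_spec m hm).2.1)⟩
  have h2 : NeZero (od n) := ⟨(Nat.one_le_iff_ne_zero.1 (od_spec n hn).2.1)⟩
  rw [chi_eq, chi_eq, chi_eq, od_mul m n hm hn, jacobiSym.mul_right,
    padicValNat.mul (by omega) (by omega), pow_add]
  ring

end Pool.Agent.P8H59.CN
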